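import Pool.Agent.H79.PRK.S1

/-!
# SQVK: square roots modulo `(P^m, γ)`
-/

set_option autoImplicit false

namespace Pool.PRK

open Polynomial Pool.T1 IsDedekindDomain

theorem sqvk_zer {R : Type} [CommRing R] (I : Ideal R) (f : R[X]) :
    Zer I f ↔ f ∈ Ideal.map (C : R →+* R[X]) I := by
  rw [Ideal.mem_map_C_iff]; rfl

theorem sqvk_map {R : Type} [CommRing R] (I : Ideal R) (f : R[X]) :
    f ∈ Ideal.map (C : R →+* R[X]) I ↔ md I f = 0 := by
  rw [Ideal.mem_map_C_iff]
  constructor
  · intro h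
    ext i
    rw [coeff_map, coeff_zero]
    exact Ideal.Quotient.eq_zero_iff_mem.2 (h i)
  · intro h i
    have := congrArg (fun p => coeff p i) h
    simp only [coeff_map, coeff_zero] at this
    exact Ideal.Quotient.eq_zero_iff_mem.1 this

theorem sqvk : SQVKStmt := by
  intro R _ _ P γ q s h2 _ hco hdvd m
  set J : Ideal R[X] := Ideal.map (C : R →+* R[X]) P.asIdeal with hJ
  have hmax : P.asIdeal.IsMaximal := P.isPrime.isMaximal P.ne_bot
  -- the inverse of two modulo P
  obtain ⟨h, hh⟩ : ∃ h : R, 1 - 2 * h ∈ P.asIdeal := by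
    obtain ⟨h, hh⟩ := (Ideal.Quotient.exists_inv (I := P.asIdeal)
      (a := Ideal.Quotient.mk P.asIdeal 2) (by
        intro h0
        exact h2 (Ideal.Quotient.eq_zero_iff_mem.1 h0)))
    obtain ⟨h', rfl⟩ := Ideal.Quotient.mk_surjective h
    refine ⟨h', ?_⟩
    rw [← Ideal.Quotient.eq_zero_iff_mem, map_sub, map_mul, hh, map_one, sub_self]
  -- the base case
  have base : ∃ v a : R[X], q * v ^ 2 - 1 - γ * a ∈ J := by
    have hs : IsCoprime (md P.asIdeal s) (md P.asIdeal γ) := by
      obtain ⟨k, hk⟩ := hdvd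
      have h1 : IsCoprime (md P.asIdeal s ^ 2 + md P.asIdeal γ * k) (md P.asIdeal γ) := by
        have : md P.asIdeal s ^ 2 + md P.asIdeal γ * k = md P.asIdeal q := by
          rw [← hk]
          simp [md]
        rw [this]; exact hco
      exact (IsCoprime.pow_left_iff (by norm_num : 0 < 2)).1
        ((IsCoprime.add_mul_left_left_iff).1 h1)
    obtain ⟨u, b, hub⟩ := hs
    obtain ⟨k, hk⟩ := hdvd
    obtain ⟨u', rfl⟩ := Polynomial.map_surjective _ (Ideal.Quotient.mk_surjective) u
    obtain ⟨b', rfl⟩ := Polynomial.map_surjective _ (Ideal.Quotient.mk_surjective) b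
    obtain ⟨k', rfl⟩ := Polynomial.map_surjective _ (Ideal.Quotient.mk_surjective) k
    refine ⟨u', k' * u' ^ 2 - b' * (u' * s + 1), ?_⟩
    rw [hJ, sqvk_map]
    have hk2 : md P.asIdeal q = md P.asIdeal s ^ 2 + md P.asIdeal γ * md P.asIdeal k' := by
      rw [← hk]; simp [md]
    have e1 : md P.asIdeal (q * u' ^ 2 - 1 - γ * (k' * u' ^ 2 - b' * (u' * s + 1))) =
        md P.asIdeal q * (md P.asIdeal u') ^ 2 - 1 - md P.asIdeal γ *
          (md P.asIdeal k' * (md P.asIdeal u') ^ 2 - md P.asIdeal b' *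
            (md P.asIdeal u' * md P.asIdeal s + 1)) := by
      simp [md]
    rw [e1, hk2]
    have e2 : md P.asIdeal u' * md P.asIdeal s = 1 - md P.asIdeal b' * md P.asIdeal γ := by
      rw [← hub]; ring
    linear_combination (md P.asIdeal u' * md P.asIdeal s + 1) * e2
  -- induction
  have key : ∀ n : ℕ, ∃ v a : R[X], q * v ^ 2 - 1 - γ * a ∈ J ^ (n + 1) := by
    intro n
    induction n with
    | zero => simpa using base
    | succ n ih =>
      obtain ⟨v, a, hva⟩ := ih
      set e := q * v ^ 2 - 1 - γ * a with he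
      refine ⟨v - C h * e * v, a - a * e, ?_⟩
      have e3 : q * (v - C h * e * v) ^ 2 - 1 - γ * (a - a * e) =
          C (1 - 2 * h) * e * (1 + γ * a) + e * e * (C h ^ 2 * (q * v ^ 2) - 2 * C h) := by
        have : C (1 - 2 * h) = 1 - 2 * C h := by
          rw [C_sub, C_mul, C_1, map_ofNat]
        rw [this]
        have h3 : q * v ^ 2 = e + 1 + γ * a := by rw [he]; ring
        linear_combination (1 - 2 * C h * e) * h3
      rw [e3]
      refine Ideal.add_mem _ ?_ ?_
      · refine Ideal.mul_mem_right _ _ ?_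
        rw [pow_succ']
        exact Ideal.mul_mem_mul (Ideal.mem_map_of_mem _ hh) hva
      · refine Ideal.mul_mem_right _ _ ?_
        have := Ideal.mul_mem_mul hva hva
        rw [← pow_add] at this
        exact Ideal.pow_le_pow_right (by omega) this
  obtain ⟨v, a, hva⟩ := key m
  refine ⟨v, a, ?_⟩
  rw [sqvk_zer, Ideal.map_pow]
  exact Ideal.pow_le_pow_right (by omega) hva

end Pool.PRK
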